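import Pool.Agent.P.MP_aaabff_nt.Aper

set_option autoImplicit false

namespace Pool.Agent.Results.MP_aaabff_nt.Aperiodic

/-- Along no orbit of the recurrence (any start) is the sequence of cases eventually periodic. -/
theorem result : ∀ a b f : ℕ → ℕ, (f = fun x => 10 * 2 ^ x - 1) →
    (∀ n, a (n + 1) = if f (a n) ≤ b n then a n + 1 else a n) →
    (∀ n, b (n + 1) = if f (a n) ≤ b n then b n - f (a n) else 3 * b n + a n + 5) →
    ¬ ∃ N P : ℕ, 0 < P ∧ ∀ n, N ≤ n → (f (a (n + P)) ≤ b (n + P) ↔ f (a n) ≤ b n) := by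
  rintro a b f rfl ha hb ⟨N, P, hP, h⟩
  exact Pool.Agent.P.MP_aaabff_nt.Aper.main ha hb hP h

end Pool.Agent.Results.MP_aaabff_nt.Aperiodic
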