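import Pool.Agent.P.MP_aaabff_nt.Back

set_option autoImplicit false

namespace Pool.Agent.Results.MP_aaabff_nt.SparseLevels

/-- There is one set `E` of levels, with at most `C * X ^ 0.606` elements in every interval of
length `X`, that contains the level `a i` of every hit `b i = f (a i) - 1` of every orbit of the
recurrence started at a pair with `b 0 < f (a 0)` and `2 * a 0 ≤ a i`
(the orbit of Q1 has `a 0 = 0`, `b 0 = 5 < 9 = f 0`). -/
theorem result : ∃ (E : Set ℕ) (C : ℝ),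
    (∀ Y X : ℕ, 1 ≤ X → ((E ∩ Set.Ico Y (Y + X)).ncard : ℝ) ≤ C * (X : ℝ) ^ (0.606 : ℝ)) ∧
    ∀ a b f : ℕ → ℕ, (f = fun x => 10 * 2 ^ x - 1) →
      (∀ n, a (n + 1) = if f (a n) ≤ b n then a n + 1 else a n) →
      (∀ n, b (n + 1) = if f (a n) ≤ b n then b n - f (a n) else 3 * b n + a n + 5) →
      b 0 < f (a 0) →
      ∀ i, 2 * a 0 ≤ a i → b i = f (a i) - 1 → a i ∈ E := by
  obtain ⟨C, hC⟩ := Pool.Agent.P.MP_aaabff_nt.lev_main
  refine ⟨Pool.Agent.P.MP_aaabff_nt.Lev, C, hC, ?_⟩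
  rintro a b f rfl ha hb h0 i h1 h2
  exact ⟨a, b, ha, hb, h0, i, h1, h2, rfl⟩

end Pool.Agent.Results.MP_aaabff_nt.SparseLevels
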