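import Pool.Agent.P.MP_aaabff_nt.SqC

set_option autoImplicit false

namespace Pool.Agent.Results.MP_aaabff_nt.SqrtHits

/-- Along every orbit of the recurrence (any start), the number of levels `x` in `[Y, Z)` at which
the boundary value is hit, `a i = x` and `b i = f (a i) - 1`, is at most
`C * (√Z - √Y + log (Y + 1))`, with one absolute constant `C`. -/
theorem result : ∃ C : ℝ, ∀ a b f : ℕ → ℕ, (f = fun x => 10 * 2 ^ x - 1) →
    (∀ n, a (n + 1) = if f (a n) ≤ b n then a n + 1 else a n) →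
    (∀ n, b (n + 1) = if f (a n) ≤ b n then b n - f (a n) else 3 * b n + a n + 5) →
    ∀ Y Z : ℕ, Y ≤ Z →
      ({x ∈ Set.Ico Y Z | ∃ i, a i = x ∧ b i = f (a i) - 1}.ncard : ℝ) ≤
        C * (√Z - √Y + Real.log (Y + 1)) := by
  classical
  refine ⟨60 * 2 ^ 20, ?_⟩
  rintro a b f rfl ha hb Y Z h
  convert Pool.Agent.P.MP_aaabff_nt.Sq.both (Pool.Agent.P.MP_aaabff_nt.Sq.main ha hb) h
  rw [← Set.ncard_coe_finset]
  congr 1
  ext x
  simp

end Pool.Agent.Results.MP_aaabff_nt.SqrtHits
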